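import Pool.Agent.R194.Baz.Fin

/-!
# MP_0e1b7e_an, Q1: TRUE

For every `α ∈ (0,1)`, every `f ∈ B_1(α)` and every `n ≥ 2` one has `|a_n| ≤ b_n(α)`.

Definitions (in `Pool.Agent.R194.Baz`):
* `IsB1 α f` : `f` is holomorphic in the open unit disc, `f 0 = 0`, `f' 0 = 1`, and with `L` the
  holomorphic logarithm of `f(z)/z` in the disc with `L 0 = 0` (so `f z = z exp (L z)`; in
  particular `f(z)/z ≠ 0`) one has `Re (exp((α-1) L z) f' z) > 0` in the disc.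
* `Gf α z = 1 + ∑_{n ≥ 1} 2α/(n+α) z^n` and `gB α z = z (Gf α z)^(1/α)` (the extremal function).
* `cf f n` : the `n`-th Taylor coefficient of `f` at zero.
-/
namespace Pool.Agent.Results.MP_0e1b7e_an.CoefficientBounds

open Pool.Agent.R194.Baz Metric

theorem result (α : ℝ) (hα : 0 < α) (hα1 : α < 1) :
    (∃ L : ℂ → ℂ, DifferentiableOn ℂ L (ball 0 1) ∧ L 0 = 0 ∧
      (∀ z ∈ ball (0:ℂ) 1, gB α z = z * Complex.exp (L z)) ∧
      ∀ z ∈ ball (0:ℂ) 1,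
        Complex.exp (((α - 1 : ℝ) : ℂ) * L z) * deriv (gB α) z = (1 + z) / (1 - z)) ∧
    IsB1 α (gB α) ∧
    (∀ n : ℕ, (cf (gB α) n).im = 0) ∧
    ∀ f : ℂ → ℂ, IsB1 α f → ∀ n : ℕ, 2 ≤ n → ‖cf f n‖ ≤ (cf (gB α) n).re := by
  have hm := gB_mem hα
  refine ⟨⟨fun z => ((1/α : ℝ) : ℂ) * Lg α z, (Lg_diff hα).const_mul _, ?_,
    fun z hz => gB_eq hα hz, hm.2⟩, hm.1, fun n => (coeff_bound hα hα1.le hm.1 n).2,
    fun f hf n _ => (coeff_bound hα hα1.le hf n).1⟩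
  show ((1/α : ℝ) : ℂ) * Lg α 0 = 0
  rw [Lg_zero hα, mul_zero]

end Pool.Agent.Results.MP_0e1b7e_an.CoefficientBounds
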